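import Mathlib

set_option autoImplicit false

open Polynomial

namespace Pool.Agent.Results.MP_c10dfe_an.NotTransitive

/-- `SemiConj A B` is the relation `A ≥ B`: some non-constant polynomial `π` satisfies
`π ∘ A = B ∘ π`. -/
def SemiConj (A B : ℂ[X]) : Prop :=
  ∃ π : ℂ[X], 0 < π.natDegree ∧ π.comp A = B.comp π

/-- `P` and `Q` are strictly intertwined: some polynomial `Φ` of degree at least `2` satisfies
`Φ ≥ P` and `Φ ≥ Q`. -/
def StrictlyIntertwined (P Q : ℂ[X]) : Prop :=
  ∃ Φ : ℂ[X], 2 ≤ Φ.natDegree ∧ SemiConj Φ P ∧ SemiConj Φ Q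

/-- Multipliers at fixed points are transported by a semiconjugacy. -/
lemma mult {α Φ P : ℂ[X]} (h : α.comp Φ = P.comp α) (hα : 0 < α.natDegree) {x : ℂ}
    (hx : Φ.eval x = x) :
    P.eval (α.eval x) = α.eval x ∧
      ∃ k : ℕ, 1 ≤ k ∧ (derivative P).eval (α.eval x) = (derivative Φ).eval x ^ k := by
  have hfix : P.eval (α.eval x) = α.eval x := by
    have := congrArg (Polynomial.eval x) h
    simp only [eval_comp, hx] at this
    exact this.symm
  refine ⟨hfix, ?_⟩
  -- shifted polynomials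
  set A : ℂ[X] := α.comp (X + C x) - C (α.eval x) with hA
  set F : ℂ[X] := Φ.comp (X + C x) - C x with hF
  set G : ℂ[X] := P.comp (X + C (α.eval x)) - C (α.eval x) with hG
  have hAF : A.comp F = G.comp A := by
    have h1 : A.comp F = (α.comp Φ).comp (X + C x) - C (α.eval x) := by
      rw [hA, hF]
      simp only [sub_comp, C_comp, comp_assoc, add_comp, X_comp]
      simp
    have h2 : G.comp A = (P.comp α).comp (X + C x) - C (α.eval x) := by
      rw [hA, hG]
      simp only [sub_comp, C_comp, comp_assoc, add_comp, X_comp]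
      simp
    rw [h1, h2, h]
  -- A is nonzero
  have hA0 : A ≠ 0 := by
    intro h0
    have h1 : α.comp (X + C x) = C (α.eval x) := sub_eq_zero.mp h0
    have h2 := congrArg natDegree h1
    rw [natDegree_comp, natDegree_C, natDegree_X_add_C, mul_one] at h2
    omega
  have hFz : F.eval 0 = 0 := by simp [hF, hx]
  have hGz : G.eval 0 = 0 := by simp [hG, hfix]
  have hAz : A.eval 0 = 0 := by simp [hA]
  obtain ⟨v, hv⟩ : X ∣ F := by
    rw [X_dvd_iff, coeff_zero_eq_eval_zero]; exact hFz
  obtain ⟨w, hw⟩ : X ∣ G := by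
    rw [X_dvd_iff, coeff_zero_eq_eval_zero]; exact hGz
  obtain ⟨u, hu, hnu⟩ := exists_eq_pow_rootMultiplicity_mul_and_not_dvd A hA0 0
  set k := rootMultiplicity 0 A with hk
  have hk1 : 1 ≤ k := (rootMultiplicity_pos hA0).mpr hAz
  simp only [C_0, sub_zero] at hu hnu
  have hu0 : u.eval 0 ≠ 0 := by
    intro h0
    apply hnu
    rw [X_dvd_iff, coeff_zero_eq_eval_zero]; exact h0
  -- derivative values
  have hv0 : v.eval 0 = (derivative Φ).eval x := by
    have h1 := congrArg (fun p => (derivative p).eval 0) hv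
    simp [hF, derivative_comp] at h1
    exact h1.symm
  have hw0 : w.eval 0 = (derivative P).eval (α.eval x) := by
    have h1 := congrArg (fun p => (derivative p).eval 0) hw
    simp [hG, derivative_comp] at h1
    exact h1.symm
  have key : v ^ k * u.comp F = u * w.comp A := by
    have h1 : A.comp F = X ^ k * (v ^ k * u.comp F) := by
      conv_lhs => rw [hu]
      simp only [mul_comp, pow_comp, X_comp]
      conv_lhs => rw [show F ^ k = X ^ k * v ^ k by rw [hv, mul_pow]]
      ring
    have h2 : G.comp A = X ^ k * (u * w.comp A) := by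
      conv_lhs => rw [hw]
      simp only [mul_comp, X_comp]
      conv_lhs => rw [show A * w.comp A = (X ^ k * u) * w.comp A by rw [← hu]]
      ring
    have h3 : (X : ℂ[X]) ^ k ≠ 0 := pow_ne_zero _ X_ne_zero
    exact mul_left_cancel₀ h3 (by rw [← h1, ← h2, hAF])
  have h4 := congrArg (Polynomial.eval 0) key
  simp only [eval_mul, eval_pow, eval_comp, hFz, hAz] at h4
  refine ⟨k, hk1, ?_⟩
  rw [← hw0, ← hv0]
  have h5 : u.eval 0 * (v.eval 0 ^ k) = u.eval 0 * w.eval 0 := by rw [← h4]; ring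
  exact (mul_left_cancel₀ hu0 h5).symm

/-- `P = X ^ 3 + 5 X`. -/
noncomputable def P : ℂ[X] := X ^ 3 + C 5 * X
/-- `R = X (X + 5) ^ 2`. -/
noncomputable def R : ℂ[X] := X * (X + C 5) ^ 2

lemma natDegree_P : P.natDegree = 3 := by unfold P; compute_degree!
lemma natDegree_R : R.natDegree = 3 := by unfold R; compute_degree!
lemma natDegree_nP : (-P).natDegree = 3 := by rw [natDegree_neg, natDegree_P]

lemma norm_eq_of_pow {z : ℂ} {a b : ℂ} {k l : ℕ} (ha : a = z ^ k) (hb : b = z ^ l) :
    ‖a‖ ^ l = ‖b‖ ^ k := by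
  rw [ha, hb, norm_pow, norm_pow, ← pow_mul, ← pow_mul, mul_comp_comm]
where
  mul_comp_comm : ‖z‖ ^ (k * l) = ‖z‖ ^ (l * k) := by rw [mul_comm]

lemma no_pow {a b : ℕ} (hab : Nat.Coprime a b) (ha : 1 < a) {k l : ℕ} (hl : 1 ≤ l)
    (h : (a : ℝ) ^ l = (b : ℝ) ^ k) : False := by
  have h' : a ^ l = b ^ k := by exact_mod_cast h
  have h1 : Nat.Coprime (a ^ l) (b ^ k) := Nat.Coprime.pow _ _ hab
  rw [← h', Nat.coprime_self] at h1
  have : 1 < a ^ l := Nat.one_lt_pow (by omega) ha
  omega

/-- Strict intertwining is not transitive on cubic polynomials. -/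
theorem not_strict : ¬ StrictlyIntertwined P (-P) := by
  rintro ⟨Φ, hΦ, ⟨α, hα, h1⟩, ⟨β, hβ, h2⟩⟩
  obtain ⟨x, hx⟩ : ∃ x, Φ.eval x = x := by
    have hdeg : (Φ - X).degree ≠ 0 := by
      have h3 : (Φ - X).natDegree = Φ.natDegree := by
        apply natDegree_sub_eq_left_of_natDegree_lt
        rw [natDegree_X]; omega
      intro h0
      have h5 : (Φ - X).natDegree = 0 := natDegree_eq_of_degree_eq_some (n := 0) (by simpa using h0)
      omega
    obtain ⟨x, hx⟩ := IsAlgClosed.exists_root (Φ - X) hdeg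
    refine ⟨x, ?_⟩
    simpa [IsRoot, sub_eq_zero] using hx
  obtain ⟨hp, k, hk, hlk⟩ := mult h1 hα hx
  obtain ⟨hq, l, hl, hll⟩ := mult h2 hβ hx
  set p := α.eval x
  set q := β.eval x
  set z := (derivative Φ).eval x
  have hp' : (5 : ℂ) = z ^ k ∨ (-7 : ℂ) = z ^ k := by
    have h3 : p * (p ^ 2 + 4) = 0 := by
      have : P.eval p - p = 0 := by rw [hp]; ring
      simp [P] at this
      linear_combination this
    have h4 : (derivative P).eval p = 3 * p ^ 2 + 5 := by
      simp [P]
      norm_num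
    rw [h4] at hlk
    rcases mul_eq_zero.mp h3 with h5 | h5
    · left; rw [← hlk, h5]; ring
    · right; rw [← hlk]; linear_combination (-3) * h5
  have hq' : (-5 : ℂ) = z ^ l ∨ (13 : ℂ) = z ^ l := by
    have h3 : q * (q ^ 2 + 6) = 0 := by
      have : (-P).eval q - q = 0 := by rw [hq]; ring
      simp [P] at this
      linear_combination -this
    have h4 : (derivative (-P)).eval q = -(3 * q ^ 2 + 5) := by
      simp [P]
      norm_num
    rw [h4] at hll
    rcases mul_eq_zero.mp h3 with h5 | h5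
    · left; rw [← hll, h5]; ring
    · right; rw [← hll]; linear_combination 3 * h5
  rcases hp' with h3 | h3 <;> rcases hq' with h4 | h4
  · have h5 := norm_eq_of_pow h3 h4
    norm_num at h5
    have h6 : l = k := h5
    rw [h6, ← h3] at h4
    norm_num at h4
  · have h5 := norm_eq_of_pow h3 h4
    norm_num at h5
    exact no_pow (a := 5) (b := 13) (by norm_num) (by norm_num) hl (by exact_mod_cast h5)
  · have h5 := norm_eq_of_pow h3 h4
    norm_num at h5
    exact no_pow (a := 7) (b := 5) (by norm_num) (by norm_num) hl (by exact_mod_cast h5)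
  · have h5 := norm_eq_of_pow h3 h4
    norm_num at h5
    exact no_pow (a := 7) (b := 13) (by norm_num) (by norm_num) hl (by exact_mod_cast h5)

/-- There are cubic polynomials `P`, `Q`, `R` such that `P` and `R`, and `R` and `Q`, are strictly
intertwined while `P` and `Q` are not. -/
theorem result :
    ∃ P Q R : ℂ[X], P.natDegree = 3 ∧ Q.natDegree = 3 ∧ R.natDegree = 3 ∧
      StrictlyIntertwined P R ∧ StrictlyIntertwined R Q ∧ ¬ StrictlyIntertwined P Q := by
  have e1 : (X ^ 2 : ℂ[X]).comp P = R.comp (X ^ 2) := by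
    simp [P, R]; ring
  have e2 : (X ^ 2 : ℂ[X]).comp (-P) = R.comp (X ^ 2) := by
    simp [P, R]; ring
  have hX2 : 0 < (X ^ 2 : ℂ[X]).natDegree := by simp
  refine ⟨P, -P, R, natDegree_P, natDegree_nP, natDegree_R, ?_, ?_, not_strict⟩
  · exact ⟨P, by rw [natDegree_P]; norm_num, ⟨X, by simp, by simp⟩, ⟨X ^ 2, hX2, e1⟩⟩
  · exact ⟨-P, by rw [natDegree_nP]; norm_num, ⟨X ^ 2, hX2, e2⟩, ⟨X, by simp, by simp⟩⟩

end Pool.Agent.Results.MP_c10dfe_an.NotTransitive
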